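import Pool.Agent.Q17.RR.Stm2

set_option autoImplicit false

/-!
Project RR (helper17): corresponding blocks.
-/

open scoped Classical

noncomputable section

namespace Pool.Agent.Q238.RR

open Pool.Agent.Q17.RR
open Pool.Agent.H254R3.IN (IsIrr omega)
open Pool.Agent.Y63.NV (centralValue IsClassFun redC)
open Pool.Agent.Y63.AWC (IsIrreducibleCharacter)
open Pool.Agent.Y930.NV (Cf cv om om_mul om_int om_ind irr_Cf redC_add redC_mul redC_sum redC_zero redC_of
  redC_intCast int_intCast Cf_ind Cf_cv Cf_expand cv_eq_conv centralValue_eq R_expand ind_out mk_conj)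

/-- indicator of a class -/
abbrev ic (A : Type) [CommRing A] {J : Type} [Group J] [Fintype J] (C : ConjClasses J) : J → A :=
  Pool.Agent.Y930.NV.ind A C

section

variable {F : Type} [Field F] {J : Type} [Group J] [Fintype J]

theorem ic_cast (A : Type) [CommRing A] (C : ConjClasses J) : (fun g => ((ic ℤ C g : ℤ) : A)) = ic A C := by
  funext g
  unfold ic Pool.Agent.Y930.NV.ind
  split_ifs <;> simp

theorem ic_class (C : ConjClasses J) : IsClassFun (ic F C) := Cf_ind F C

/-- two linear functionals on the class functions -/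
theorem lin_ext {L L' : (J → F) → F}
    (h1 : ∀ f g, IsClassFun f → IsClassFun g → L (f + g) = L f + L g)
    (h2 : ∀ (a : F) (f : J → F), IsClassFun f → L (a • f) = a * L f)
    (h1' : ∀ f g, IsClassFun f → IsClassFun g → L' (f + g) = L' f + L' g)
    (h2' : ∀ (a : F) (f : J → F), IsClassFun f → L' (a • f) = a * L' f)
    (h : ∀ C : ConjClasses J, L (ic F C) = L' (ic F C)) (f : J → F) (hf : IsClassFun f) : L f = L' f := by
  have hz : ∀ K : (J → F) → F, (∀ (a : F) (f : J → F), IsClassFun f → K (a • f) = a * K f) → K 0 = 0 := by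
    intro K hK
    have := hK 0 0 (fun _ _ => rfl)
    rwa [zero_smul, zero_mul] at this
  have gen : ∀ (K : (J → F) → F), (∀ f g, IsClassFun f → IsClassFun g → K (f + g) = K f + K g) →
      (∀ (a : F) (f : J → F), IsClassFun f → K (a • f) = a * K f) → ∀ (a : ConjClasses J → F) (S : Finset (ConjClasses J)),
      IsClassFun (∑ C ∈ S, a C • ic F C) ∧ K (∑ C ∈ S, a C • ic F C) = ∑ C ∈ S, a C * K (ic F C) := by
    intro K k1 k2 a S
    induction S using Finset.induction_on with
    | empty =>
      rw [Finset.sum_empty, Finset.sum_empty]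
      exact ⟨fun _ _ => rfl, hz K k2⟩
    | insert C S hC ih =>
      have hc : IsClassFun (a C • ic F C) := by
        intro g x
        rw [Pi.smul_apply, Pi.smul_apply, ic_class C g x]
      rw [Finset.sum_insert hC, Finset.sum_insert hC]
      refine ⟨?_, ?_⟩
      · intro g x
        rw [Pi.add_apply, Pi.add_apply, hc g x, ih.1 g x]
      · rw [k1 _ _ hc ih.1, k2 _ _ (ic_class C), ih.2]
  have e : f = ∑ C : ConjClasses J, f C.out • ic F C := by
    funext x
    rw [Finset.sum_apply]
    refine (Cf_expand hf x).trans ?_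
    exact Finset.sum_congr (Finset.ext fun c => by simp) fun c _ => rfl
  rw [e, (gen L h1 h2 _ _).2, (gen L' h1' h2' _ _).2]
  exact Finset.sum_congr rfl fun C _ => by rw [h C]

variable (red : integralClosure ℤ ℂ →+* F)

/-- the central value at an integral class function -/
theorem cv_int {χ : J → ℂ} (h : IsIrr χ) {n : J → ℤ} (hn : Cf n) :
    centralValue red χ (fun g => ((n g : ℤ) : F)) = redC red (om χ (fun g => (n g : ℂ))) := by
  have h' : IsIrreducibleCharacter χ := h
  rw [centralValue_eq red h']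
  exact (R_expand red h' hn).symm

theorem om_omega {χ : J → ℂ} (h : IsIrr χ) (x : J) : om χ (ic ℂ (ConjClasses.mk x)) = omega χ x := by
  rw [← Pool.Agent.H254R3.IN.Om_ind h x]
  unfold Pool.Agent.Y930.NV.om Pool.Agent.H254R3.IN.Om
  congr 1
  refine Finset.sum_congr rfl fun g _ => ?_
  congr 1
  unfold ic Pool.Agent.Y930.NV.ind Pool.Agent.H254R3.IN.ind
  congr 1
  apply propext
  rw [ConjClasses.mk_eq_mk_iff_isConj]
  exact ⟨fun h => h.symm, fun h => h.symm⟩

theorem cv_ic {χ : J → ℂ} (h : IsIrr χ) (x : J) :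
    centralValue red χ (ic F (ConjClasses.mk x)) = redC red (omega χ x) := by
  rw [← ic_cast F, cv_int red h (Cf_ind ℤ _), ic_cast ℂ, om_omega h]

theorem cv_ic' {χ : J → ℂ} (h : IsIrr χ) (C : ConjClasses J) :
    centralValue red χ (ic F C) = redC red (om χ (ic ℂ C)) := by
  rw [← ic_cast F, cv_int red h (Cf_ind ℤ _), ic_cast ℂ]

theorem ic_int (C : ConjClasses J) (g : J) : IsIntegral ℤ (ic ℂ C g) := by
  unfold ic Pool.Agent.Y930.NV.ind
  split_ifs
  · exact isIntegral_one
  · exact isIntegral_zero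

theorem om_ic_int {χ : J → ℂ} (h : IsIrr χ) (C : ConjClasses J) : IsIntegral ℤ (om χ (ic ℂ C)) := by
  rw [← ic_cast ℂ]
  exact om_int h (Cf_ind ℤ C)

theorem redC_neg {a : ℂ} (ha : IsIntegral ℤ a) : redC red (-a) = - redC red a := by
  have h := redC_add red ha ha.neg
  rw [add_neg_cancel, redC_zero] at h
  exact (neg_eq_of_add_eq_zero_right h.symm).symm

/-- the product of the differences -/
theorem exists_fac {β : (J → F) → F} (hβ : Pool.Agent.Y63.NV.IsBlock β) (T : Finset (J → ℂ))
    (hT : ∀ χ ∈ T, IsIrr χ ∧ ¬ ∀ f : J → F, IsClassFun f → centralValue red χ f = β f) :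
    ∃ z : J → ℂ, Cf z ∧ (∀ g, IsIntegral ℤ (z g)) ∧ (∀ χ ∈ T, om χ z = 0) ∧
      β (fun g => redC red (z g)) ≠ 0 := by
  induction T using Finset.induction_on with
  | empty =>
    refine ⟨Pi.single 1 1, ?_, ?_, fun χ h => absurd h (Finset.notMem_empty χ), ?_⟩
    · intro g x
      by_cases hx : x = 1
      · rw [hx, mul_one, mul_inv_cancel]
      · rw [Pi.single_eq_of_ne hx, Pi.single_eq_of_ne]
        intro h
        apply hx
        have h2 : g * x = g := by rw [mul_inv_eq_one] at h; exact h
        exact mul_eq_left.1 h2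
    · intro g
      by_cases hg : g = 1
      · rw [hg, Pi.single_eq_same]; exact isIntegral_one
      · rw [Pi.single_eq_of_ne hg]; exact isIntegral_zero
    · have e : (fun g : J => redC red ((Pi.single 1 1 : J → ℂ) g)) = (Pi.single 1 1 : J → F) := by
        funext g
        by_cases hg : g = 1
        · rw [hg, Pi.single_eq_same, Pi.single_eq_same, Pool.Agent.Y930.NV.redC_one]
        · rw [Pi.single_eq_of_ne hg, Pi.single_eq_of_ne hg, redC_zero]
      rw [e, hβ.one]
      exact one_ne_zero
  | insert χ T hχT ih =>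
    obtain ⟨z, z1, z2, z3, z4⟩ := ih fun ψ hψ => hT ψ (Finset.mem_insert_of_mem hψ)
    obtain ⟨hχ, hne⟩ := hT χ (Finset.mem_insert_self χ T)
    have hblk : Pool.Agent.Y63.NV.IsBlock (centralValue red χ) := Pool.Agent.Y930.NV.cvh F red J χ hχ
    obtain ⟨C, hC⟩ : ∃ C : ConjClasses J, centralValue red χ (ic F C) ≠ β (ic F C) := by
      by_contra hcon
      push Not at hcon
      exact hne (fun f hf => lin_ext hblk.add hblk.smul hβ.add hβ.smul hcon f hf)
    set c : ℂ := om χ (ic ℂ C) with hc
    have hcI : IsIntegral ℤ c := om_ic_int hχ C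
    have hone : ∀ g x : J, (Pi.single 1 1 : J → ℂ) (g * x * g⁻¹) = (Pi.single 1 1 : J → ℂ) x := by
      intro g x
      by_cases hx : x = 1
      · rw [hx, mul_one, mul_inv_cancel]
      · rw [Pi.single_eq_of_ne hx, Pi.single_eq_of_ne]
        intro h
        apply hx
        have h2 : g * x = g := by rw [mul_inv_eq_one] at h; exact h
        exact mul_eq_left.1 h2
    have honeI : ∀ g : J, IsIntegral ℤ ((Pi.single 1 1 : J → ℂ) g) := by
      intro g
      by_cases hg : g = 1
      · rw [hg, Pi.single_eq_same]; exact isIntegral_one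
      · rw [Pi.single_eq_of_ne hg]; exact isIntegral_zero
    set w : J → ℂ := fun g => ic ℂ C g + (-c) * (Pi.single 1 1 : J → ℂ) g with hw
    have w1 : Cf w := by
      intro g x
      show ic ℂ C (g * x * g⁻¹) + (-c) * (Pi.single 1 1 : J → ℂ) (g * x * g⁻¹) = ic ℂ C x + (-c) * (Pi.single 1 1 : J → ℂ) x
      have hh : ic ℂ C (g * x * g⁻¹) = ic ℂ C x := Cf_ind ℂ C g x
      rw [hone g x, hh]
    have w2 : ∀ g, IsIntegral ℤ (w g) := fun g => (ic_int C g).add (hcI.neg.mul (honeI g))
    have w3 : om χ w = 0 := by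
      have e1 : om χ w = om χ (ic ℂ C) + (-c) * om χ (Pi.single 1 1) := by
        unfold Pool.Agent.Y930.NV.om
        rw [← mul_div_assoc, ← add_div, Finset.mul_sum, ← Finset.sum_add_distrib]
        congr 1
        refine Finset.sum_congr rfl fun g _ => ?_
        rw [hw]; ring
      rw [e1, Pool.Agent.Y930.NV.om_one hχ, ← hc]
      ring
    have hred : ∀ u v : J → ℂ, (∀ g, IsIntegral ℤ (u g)) → (∀ g, IsIntegral ℤ (v g)) →
        (fun g => redC red (cv u v g)) = cv (fun g => redC red (u g)) (fun g => redC red (v g)) := by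
      intro u v hu hv
      funext g
      unfold Pool.Agent.Y930.NV.cv
      rw [redC_sum red _ _ (fun y _ => (hu y).mul (hv _))]
      exact Finset.sum_congr rfl fun y _ => redC_mul red (hu y) (hv _)
    have hRcf : ∀ u : J → ℂ, Cf u → IsClassFun (fun g => redC red (u g)) := by
      intro u hu g x
      show redC red (u (g * x * g⁻¹)) = redC red (u x)
      rw [hu g x]
    refine ⟨cv z w, Cf_cv z1 w1, ?_, ?_, ?_⟩
    · intro g
      unfold Pool.Agent.Y930.NV.cv
      exact IsIntegral.sum _ fun y _ => (z2 y).mul (w2 _)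
    · intro ψ hψ
      rcases Finset.mem_insert.1 hψ with rfl | hψ'
      · rw [om_mul hχ z1 w1, w3, mul_zero]
      · rw [om_mul (hT ψ hψ).1 z1 w1, z3 ψ hψ', zero_mul]
    · rw [hred z w z2 w2, ← cv_eq_conv, hβ.mul _ _ (hRcf z z1) (hRcf w w1)]
      refine mul_ne_zero z4 ?_
      have e2 : (fun g => redC red (w g)) = ic F C + (redC red (-c)) • (Pi.single 1 1 : J → F) := by
        funext g
        rw [Pi.add_apply, Pi.smul_apply, smul_eq_mul]
        show redC red (ic ℂ C g + (-c) * (Pi.single 1 1 : J → ℂ) g) = _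
        rw [redC_add red (ic_int C g) (hcI.neg.mul (honeI g)), redC_mul red hcI.neg (honeI g)]
        congr 1
        · unfold ic Pool.Agent.Y930.NV.ind
          split_ifs
          · exact Pool.Agent.Y930.NV.redC_one red
          · exact redC_zero red
        · congr 1
          by_cases hg : g = 1
          · rw [hg, Pi.single_eq_same, Pi.single_eq_same, Pool.Agent.Y930.NV.redC_one]
          · rw [Pi.single_eq_of_ne hg, Pi.single_eq_of_ne hg, redC_zero]
      have honeF : IsClassFun (Pi.single 1 1 : J → F) := by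
        intro g x
        by_cases hx : x = 1
        · rw [hx, mul_one, mul_inv_cancel]
        · rw [Pi.single_eq_of_ne hx, Pi.single_eq_of_ne]
          intro h
          apply hx
          have h2 : g * x = g := by rw [mul_inv_eq_one] at h; exact h
          exact mul_eq_left.1 h2
      have honeF' : IsClassFun ((redC red (-c)) • (Pi.single 1 1 : J → F)) := by
        intro g x
        rw [Pi.smul_apply, Pi.smul_apply, honeF g x]
      rw [e2, hβ.add _ _ (ic_class C) honeF', hβ.smul _ _ honeF, hβ.one, mul_one, redC_neg red hcI, ← sub_eq_add_neg]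
      intro h
      apply hC
      rw [cv_ic' red hχ, ← hc]
      exact (sub_eq_zero.1 h).symm

/-- every block in the `F`-form belongs to an irreducible character -/
theorem exists_irr {β : (J → F) → F} (hβ : Pool.Agent.Y63.NV.IsBlock β) :
    ∃ χ : J → ℂ, IsIrr χ ∧ ∀ f : J → F, IsClassFun f → centralValue red χ f = β f := by
  by_contra hcon
  push Not at hcon
  obtain ⟨z, z1, z2, z3, z4⟩ := exists_fac red hβ (Pool.Agent.Helper884.IC.Irr J) (by
    intro χ hχ
    have h1 : IsIrr χ := Pool.Agent.Helper884.IC.mem_Irr.1 hχ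
    refine ⟨h1, fun h => ?_⟩
    obtain ⟨f, hf1, hf2⟩ := hcon χ h1
    exact hf2 (h f hf1))
  have hz : z = 0 := by
    apply Pool.Agent.H254R3.IN.eq_of_Om (f := z) (h := 0)
    · intro g y; exact z1 y g
    · intro g y; rfl
    · intro χ hχ
      have h1 := z3 χ (Pool.Agent.Helper884.IC.mem_Irr.2 hχ)
      have h2 : Pool.Agent.H254R3.IN.Om z χ = om χ z := rfl
      rw [h2, h1]
      unfold Pool.Agent.H254R3.IN.Om
      simp
  apply z4
  have e : (fun g => redC red (z g)) = (0 : F) • (0 : J → F) := by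
    funext g
    rw [hz, Pi.zero_apply, redC_zero, zero_smul, Pi.zero_apply]
  rw [e, hβ.smul 0 0 (fun _ _ => rfl), zero_mul]

end

theorem redC_eq_iff {F : Type} [Field F] {O : ValuationSubring ℂ} {red : integralClosure ℤ ℂ →+* F}
    (hMt : Mt O red) {a b : ℂ} (ha : IsIntegral ℤ a) (hb : IsIntegral ℤ b) :
    redC red a = redC red b ↔ a - b ∈ O.nonunits := by
  have h1 : IsIntegral ℤ (a - b) := ha.sub hb
  have h2 := hMt ⟨a - b, h1⟩
  have h3 : redC red (a - b) = redC red a - redC red b := by
    rw [sub_eq_add_neg, redC_add red ha hb.neg, redC_neg red hb, ← sub_eq_add_neg]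
  rw [← sub_eq_zero, ← h3, redC_of red h1]
  exact h2.symm

/-- the corresponding block -/
theorem br_of {F : Type} [Field F] {O : ValuationSubring ℂ} {red : integralClosure ℤ ℂ →+* F}
    (hMt : Mt O red) {Γ : Type} [Group Γ] [Fintype Γ] {χ₀ : Γ → ℂ} (h0 : IsIrr χ₀) {β : (Γ → F) → F}
    (hβ : Pool.Agent.Y63.NV.IsBlock β) (h : ∀ f : Γ → F, IsClassFun f → centralValue red χ₀ f = β f) :
    Br O red {χ | IsIrr χ ∧ ∀ x : Γ, omega χ x - omega χ₀ x ∈ O.nonunits} β := by
  have hic : ∀ x : Γ, β (ic F (ConjClasses.mk x)) = redC red (omega χ₀ x) := by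
    intro x
    rw [← h _ (ic_class _), cv_ic red h0]
  constructor
  · intro χ
    constructor
    · rintro ⟨hχ, hx⟩
      refine ⟨hχ, ?_⟩
      have hblk : Pool.Agent.Y63.NV.IsBlock (centralValue red χ) := Pool.Agent.Y930.NV.cvh F red Γ χ hχ
      refine lin_ext hblk.add hblk.smul hβ.add hβ.smul fun C => ?_
      induction C using Quotient.inductionOn with
      | h x =>
        have e : (Quotient.mk _ x : ConjClasses Γ) = ConjClasses.mk x := rfl
        rw [e, cv_ic red hχ, hic]
        exact (redC_eq_iff hMt (hχ.omega_isIntegral x) (h0.omega_isIntegral x)).2 (hx x)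
    · rintro ⟨hχ, hf⟩
      refine ⟨hχ, fun x => ?_⟩
      have h1 := hf _ (ic_class (ConjClasses.mk x))
      rw [cv_ic red hχ, hic] at h1
      exact (redC_eq_iff hMt (hχ.omega_isIntegral x) (h0.omega_isIntegral x)).1 h1
  · intro H ψ hψ
    have : Fintype H := Fintype.ofFinite H
    have hblk : Pool.Agent.Y63.NV.IsBlock (centralValue red ψ) := Pool.Agent.Y930.NV.cvh F red H ψ hψ
    -- the sums
    have hsum : ∀ x : Γ, (∑ᶠ y : {y : H // IsConj x (y : Γ)}, ψ y / ψ 1) =
        om ψ (fun g : H => ((ic ℤ (ConjClasses.mk x) (g : Γ) : ℤ) : ℂ)) := by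
      intro x
      unfold Pool.Agent.Y930.NV.om
      have e : ∀ g : H, ((ic ℤ (ConjClasses.mk x) (g : Γ) : ℤ) : ℂ) * ψ g =
          if IsConj x (g : Γ) then ψ g else 0 := by
        intro g
        unfold ic Pool.Agent.Y930.NV.ind
        by_cases hg : IsConj x (g : Γ)
        · rw [if_pos ((ConjClasses.mk_eq_mk_iff_isConj).2 hg.symm), if_pos hg]
          simp
        · rw [if_neg (fun h => hg ((ConjClasses.mk_eq_mk_iff_isConj).1 h).symm), if_neg hg]
          simp
      rw [Finset.sum_congr rfl (fun g _ => e g), ← Finset.sum_filter, Finset.sum_div, finsum_eq_sum_of_fintype]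
      exact (Finset.sum_subtype (Finset.univ.filter fun g : H => IsConj x (g : Γ)) (by simp)
        (fun g => ψ g / ψ 1)).symm
    have hcf : ∀ x : Γ, Cf (fun g : H => ic ℤ (ConjClasses.mk x) (g : Γ)) := by
      intro x g y
      exact Cf_ind ℤ (ConjClasses.mk x) (g : Γ) (y : Γ)
    have hval : ∀ x : Γ, centralValue red ψ (fun g : H => ic F (ConjClasses.mk x) (g : Γ)) =
        redC red (∑ᶠ y : {y : H // IsConj x (y : Γ)}, ψ y / ψ 1) := by
      intro x
      rw [hsum x, ← cv_int red hψ (hcf x)]
      congr 1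
      funext g
      exact (congrFun (ic_cast F (ConjClasses.mk x)) (g : Γ)).symm
    have hint : ∀ x : Γ, IsIntegral ℤ (∑ᶠ y : {y : H // IsConj x (y : Γ)}, ψ y / ψ 1) := by
      intro x
      rw [hsum x]
      exact om_int hψ (hcf x)
    constructor
    · intro hInd
      refine lin_ext (L := fun f : Γ → F => centralValue red ψ (fun g : H => f g)) ?_ ?_ hβ.add hβ.smul ?_
      · intro f f' hf hf'
        exact hblk.add (fun g : H => f g) (fun g : H => f' g) (fun g x => hf g x) (fun g x => hf' g x)
      · intro a f hf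
        exact hblk.smul a (fun g : H => f g) (fun g x => hf g x)
      · intro C
        induction C using Quotient.inductionOn with
        | h x =>
          have e : (Quotient.mk _ x : ConjClasses Γ) = ConjClasses.mk x := rfl
          rw [e, hic]
          refine (hval x).trans ?_
          exact ((redC_eq_iff hMt (h0.omega_isIntegral x) (hint x)).2
            (hInd χ₀ ⟨h0, fun y => by rw [sub_self]; exact O.nonunits.zero_mem⟩ x (Set.mem_univ x))).symm
    · intro hf χ hχ x _
      obtain ⟨hχ1, hχ2⟩ := hχ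
      rw [← redC_eq_iff hMt (hχ1.omega_isIntegral x) (hint x), ← hval x, hf _ (ic_class _), hic]
      exact (redC_eq_iff hMt (hχ1.omega_isIntegral x) (h0.omega_isIntegral x)).2 (hχ2 x)

theorem t_BRC : S_BRC := by
  intro p _ F _ _ _ red O hO hMt Γ _ _
  constructor
  · rintro B ⟨χ₀, h0, rfl⟩
    have hblk : Pool.Agent.Y63.NV.IsBlock (centralValue red χ₀) := Pool.Agent.Y930.NV.cvh F red Γ χ₀ h0
    exact ⟨centralValue red χ₀, hblk, br_of hMt h0 hblk fun _ _ => rfl⟩
  · intro β hβ
    obtain ⟨χ₀, h0, h1⟩ := exists_irr red hβ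
    exact ⟨_, ⟨χ₀, h0, rfl⟩, br_of hMt h0 hβ h1⟩

end Pool.Agent.Q238.RR
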