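import Pool.Agent.Q17.RR.Stm2
import Pool.Agent.Q14.AM.DZB

set_option autoImplicit false

/-!
Project RR (helper17): the alternating sums in the two forms.
-/

open scoped Classical

noncomputable section

namespace Pool.Agent.Q238.RR

open Pool.Agent.Q17.RR
open Pool.Agent.H254R3.IN (IsIrr omega red_eq_zero_iff inv_mem_of_red_ne red_ne_zero_of_mul red_eq_zero)
open Pool.Agent.Y63.NV (centralValue IsClassFun redC numDzBlock)
open Pool.Agent.Y63.KR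
open Pool.Agent.Q17.DC (Ch chX altX)
open Pool.Agent.Q17.AM (Pos)
open Pool.Agent.Q18.K (altQ numQ chS CH numQ_conj cls_eq)

theorem numQ_ck {F : Type} [Field F] {O : ValuationSubring ℂ} {red : integralClosure ℤ ℂ →+* F}
    {Γ : Type} [Group Γ] {B : Set (Γ → ℂ)} {β : (Γ → F) → F} (h : Br O red B β) (K : Set (ℂ ≃+* ℂ))
    (H : Subgroup Γ) : numQ red β (fun S => ∀ s ∈ K, ∀ a ∈ S, s a = a) H = ck O B Set.univ K H := by
  unfold Pool.Agent.Q18.K.numQ Pool.Agent.Q17.RR.ck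
  refine Nat.card_congr (Equiv.subtypeEquivRight fun χ => ?_)
  constructor
  · rintro ⟨h1, h2, h3⟩
    exact ⟨h1, (h.ind H χ h1).2 h3, fun s hs g => h2 s hs _ ⟨g, rfl⟩⟩
  · rintro ⟨h1, h2, h3⟩
    refine ⟨h1, ?_, (h.ind H χ h1).1 h2⟩
    rintro s hs _ ⟨g, rfl⟩
    exact h3 s hs g

theorem alt_eq (p : ℕ) {F : Type} [Field F] {O : ValuationSubring ℂ} {red : integralClosure ℤ ℂ →+* F}
    {Γ : Type} [Group Γ] [Finite Γ] {B : Set (Γ → ℂ)} {β : (Γ → F) → F} (h : Br O red B β)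
    (K : Set (ℂ ≃+* ℂ)) :
    altQ p (⊥ : Subgroup Γ) red β (fun S => ∀ s ∈ K, ∀ a ∈ S, s a = a) = SK p O B K := by
  unfold Pool.Agent.Q17.RR.SK Pool.Agent.Q17.DC.altX
  simp only [← numQ_ck h K]
  exact cls_eq (CH p ⊤ (⊥ : Subgroup Γ)) (Ch p ⊤ (⊥ : Subgroup Γ))
    (fun σ => ⟨fun h => ⟨h.chain, h.isp, h.le, h.lt⟩, fun h => ⟨h.chain, h.isp, h.le, h.lt⟩⟩)
    (fun _ h => h.chain)
    (fun g σ h => by
      have h1 : CH p ⊤ (⊥ : Subgroup Γ) σ := ⟨h.chain, h.isp, h.le, h.lt⟩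
      have h2 := h1.conj inferInstance g
      exact ⟨h2.chain, h2.isp, h2.le, h2.lt⟩)
    (chS p (⊥ : Subgroup Γ)) (fun _ _ => Iff.rfl) (chX p ⊤ (⊥ : Subgroup Γ))
    (fun σ τ => ⟨fun ⟨g, _, hg⟩ => ⟨g, hg⟩, fun ⟨g, hg⟩ => ⟨g, Subgroup.mem_top g, hg⟩⟩)
    (fun H => (numQ red β (fun S => ∀ s ∈ K, ∀ a ∈ S, s a = a) H : ℤ))
    (fun g H => by rw [numQ_conj])

/-- two blocks with a common member -/
theorem block_eq {G : Type} [Group G] {O : ValuationSubring ℂ} {B B' : Set (G → ℂ)}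
    (hB : Pool.Agent.H254R3.IN.IsBlock O B) (hB' : Pool.Agent.H254R3.IN.IsBlock O B') {θ : G → ℂ}
    (h : θ ∈ B) (h' : θ ∈ B') : B = B' := by
  obtain ⟨χ₀, hχ₀, rfl⟩ := hB
  obtain ⟨χ₁, hχ₁, rfl⟩ := hB'
  ext ψ
  constructor
  · rintro ⟨hψ, h3⟩
    refine ⟨hψ, fun x => ?_⟩
    have h4 := O.nonunits.add_mem (O.nonunits.sub_mem (h3 x) (h.2 x)) (h'.2 x)
    have h5 : omega ψ x - omega χ₀ x - (omega θ x - omega χ₀ x) + (omega θ x - omega χ₁ x) =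
      omega ψ x - omega χ₁ x := by ring
    rw [h5] at h4
    exact h4
  · rintro ⟨hψ, h3⟩
    refine ⟨hψ, fun x => ?_⟩
    have h4 := O.nonunits.add_mem (O.nonunits.sub_mem (h3 x) (h'.2 x)) (h.2 x)
    have h5 : omega ψ x - omega χ₁ x - (omega θ x - omega χ₁ x) + (omega θ x - omega χ₀ x) =
      omega ψ x - omega χ₀ x := by ring
    rw [h5] at h4
    exact h4

theorem wt_iff {p : ℕ} [Fact p.Prime] {O : ValuationSubring ℂ} (hO : (p : ℂ) ∈ O.nonunits) {Γ : Type} [Group Γ]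
    [Fintype Γ] {χ : Γ → ℂ} (hχ : IsIrr χ) :
    Pool.Agent.Y63.NV.IsWt p (⊥ : Subgroup Γ) χ ↔ (Nat.card Γ : ℂ) / χ 1 ∉ O.nonunits := by
  have h1 := Pool.Agent.Q14.AM.card_div_mem O hχ
  obtain ⟨n, hn0, hn⟩ := hχ.deg
  have hG0 : Nat.card Γ ≠ 0 := Nat.card_pos.ne'
  have hGC : (Nat.card Γ : ℂ) ≠ 0 := by exact_mod_cast hG0
  have hnC : (n : ℂ) ≠ 0 := by exact_mod_cast hn0.ne'
  constructor
  · rintro ⟨_, _, n', hn', hfac⟩ hnon
    have hnn : n' = n := by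
      have : (n' : ℂ) = n := by rw [← hn', hn]
      exact_mod_cast this
    rw [hnn] at hfac
    have h2 : χ 1 / Nat.card Γ ∈ O := by
      rw [← hn]
      refine Pool.Agent.Q176.DC.DZV.deg_mem hO hG0 ?_
      have h6 : (Nat.card (⊥ : Subgroup Γ)).factorization p = 0 := by simp
      omega
    have h3 : (Nat.card Γ : ℂ) / χ 1 * (χ 1 / Nat.card Γ) = 1 := by
      rw [← hn]; field_simp
    exact red_ne_zero_of_mul h1 h2 h3 (red_eq_zero hnon)
  · intro hnon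
    have h2 : Pool.Agent.H254R3.IN.red O ((Nat.card Γ : ℂ) / χ 1) ≠ 0 := fun h => hnon ((red_eq_zero_iff h1).mp h)
    have h3 := (inv_mem_of_red_ne h2).2.1
    rw [inv_div] at h3
    refine ⟨hχ, ?_, n, hn.symm, ?_⟩
    · intro q hq x
      rw [Subgroup.mem_bot] at hq
      rw [hq, one_mul]
    · rw [← hn] at h1 h3
      have h4 := Pool.Agent.Q14.AM.fac_le hO hG0 hn0.ne' h1
      have h5 := Pool.Agent.Q14.AM.fac_le hO hn0.ne' hG0 h3
      have h6 : (Nat.card (⊥ : Subgroup Γ)).factorization p = 0 := by simp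
      omega

theorem t_BRS : S_BRS := by
  intro p _ F _ _ _ red O hO hMt Γ _ _ B β hB hβ hBr
  refine ⟨fun K => alt_eq p hBr K, ?_⟩
  unfold Pool.Agent.Y63.NV.numDzBlock
  split_ifs with hP
  · have hE : IsEmpty {χ : Γ → ℂ // Pool.Agent.Y63.NV.IsWt p (⊥ : Subgroup Γ) χ ∧
        ∀ f : Γ → F, IsClassFun f → centralValue red χ f = β f} := by
      constructor
      rintro ⟨χ, h1, h2⟩
      have hχ : IsIrr χ := h1.irr
      exact (wt_iff hO hχ).1 h1 (hP χ ((hBr.mem χ).2 ⟨hχ, h2⟩))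
    rw [Nat.card_of_isEmpty, Nat.cast_zero]
  · unfold Pool.Agent.Q17.AM.Pos at hP
    push Not at hP
    obtain ⟨θ, hθB, hθn⟩ := hP
    obtain ⟨hθ, hθf⟩ := (hBr.mem θ).1 hθB
    have hdz : θ 1 / Nat.card Γ ∈ O := by
      have h1 := Pool.Agent.Q14.AM.card_div_mem O hθ
      have h2 : Pool.Agent.H254R3.IN.red O ((Nat.card Γ : ℂ) / θ 1) ≠ 0 := fun h => hθn ((red_eq_zero_iff h1).mp h)
      have h3 := (inv_mem_of_red_ne h2).2.1
      rwa [inv_div] at h3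
    have hBe : B = {θ} := block_eq hB (Pool.Agent.Q176.DC.DZV.single_block hθ hdz) hθB (Set.mem_singleton θ)
    have hone : Nat.card {χ : Γ → ℂ // Pool.Agent.Y63.NV.IsWt p (⊥ : Subgroup Γ) χ ∧
        ∀ f : Γ → F, IsClassFun f → centralValue red χ f = β f} = 1 := by
      rw [Nat.card_eq_one_iff_exists]
      refine ⟨⟨θ, (wt_iff hO hθ).2 hθn, hθf⟩, ?_⟩
      rintro ⟨χ, h1, h2⟩
      have h3 : χ ∈ B := (hBr.mem χ).2 ⟨h1.irr, h2⟩
      rw [hBe] at h3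
      exact Subtype.ext (Set.mem_singleton_iff.1 h3)
    rw [hone, Nat.cast_one]

end Pool.Agent.Q238.RR
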