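import Pool.Agent.Q17.RR.Stm2

set_option autoImplicit false

/-!
Project RR (helper17): the characters with bounded `p`-part of the irrationality.
-/

open scoped Classical

noncomputable section

namespace Pool.Agent.Q238.RR

open Pool.Agent.Q17.RR
open Pool.Agent.Helper884.IC (IsIrrChar irr_finite)
open Pool.Agent.Q18.K

theorem t_RAS (hF : S_BRF) (hC : S_BRC) (hS : S_BRS) : S_RAS := by
  intro p b _ hpb O hO Γ _ _ B hB
  obtain ⟨F, _, _, _, red, hMt⟩ := hF p O hO
  obtain ⟨β, hβ, hBr⟩ := (hC p F red O hO hMt Γ).1 B hB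
  have key := (hS p F red O hO hMt Γ B β hB hβ hBr).1
  obtain ⟨s, hs1, hs2⟩ := exists_gen' (Γ := Γ) hpb
  rw [← key, ← key]
  have e1 : altQ p (⊥ : Subgroup Γ) red β (fun S => ∀ t ∈ (∅ : Set (ℂ ≃+* ℂ)), ∀ a ∈ S, t a = a) =
      altQ p (⊥ : Subgroup Γ) red β (fun _ => True) :=
    altQ_congr red β fun H χ _ => by simp
  rw [e1, fixed_sum red IsPGroup.of_bot inferInstance (s := s) ?_ hβ]
  · refine altQ_congr red β fun H χ hχ => ?_
    have : Fintype H := Fintype.ofFinite H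
    constructor
    · intro h
      exact h s hs1
    · intro h t ht
      have h' : ∀ x, s (χ x) = χ x := fun x => h _ ⟨x, rfl⟩
      rintro _ ⟨x, rfl⟩
      have h4 := hs2 t ht
      have h5 : ∀ x : H, χ (x ^ ex (uσ Γ s)) = χ x := by
        intro x
        rw [char_pow_gal s Nat.card_pos (fun ζ hζ => uσ_spec s ζ hζ) hχ (hxn _ x), h']
      have h6 := fix_zp h4 h5 x
      rw [char_pow_gal t Nat.card_pos (fun ζ hζ => uσ_spec t ζ hζ) hχ (hxn _ x)] at h6
      exact h6
  · rintro ζ h1 ⟨k, hk, h2⟩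
    refine hs1 ζ h1 ⟨k, hk, ?_⟩
    have h3 : Monoid.exponent (⊥ : Subgroup Γ) ∣ 1 :=
      Monoid.exponent_dvd_of_forall_pow_eq_one fun x => Subsingleton.elim _ _
    have h4 : Monoid.exponent (⊥ : Subgroup Γ) = 1 := Nat.dvd_one.1 h3
    rw [h4, mul_one] at h2
    rw [pow_mul, h2, one_pow]

end Pool.Agent.Q238.RR
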